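import Pool.Agent.Helper4.CI.Goals

/-!
# Piece M3: uniqueness of the cell
-/

namespace Mono.CI.M3

open Finset Mono Mono.CI

variable {N k n : ℕ}

theorem lift_castAdd (c : Option (Fin k)) (v : Fin N → ℤ) (i : Fin N) :
    lift c v (Fin.castAdd k i) = v i := by
  unfold lift
  exact Fin.append_left _ _ _

theorem lift_natAdd (c : Option (Fin k)) (v : Fin N → ℤ) (j : Fin k) :
    lift c v (Fin.natAdd N j) = ind c j := by
  unfold lift
  exact Fin.append_right _ _ _

theorem mem_cay {φ : Option (Fin k) → Finset (Fin N → ℤ)} {u : Fin (N + k) → ℤ} :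
    u ∈ cay φ univ ↔ ∃ c, ∃ v ∈ φ c, lift c v = u := by
  unfold cay
  simp only [mem_biUnion, mem_univ, true_and, mem_image]

theorem mem_cs {τ : Finset (Fin n → ℤ)} {i : Fin n} : i ∈ cs τ ↔ ∃ u ∈ τ, u i ≠ 0 := by
  unfold cs; simp

theorem mem_eKh {K : Finset (Fin N)} {u : Fin (N + k) → ℤ} :
    u ∈ eK (Kh k K) ↔ ∃ i ∈ K, (Pi.single (Fin.castAdd k i) 1 : Fin (N + k) → ℤ) = u := by
  unfold eK Kh
  simp only [mem_image, exists_exists_and_eq_and]

theorem natAdd_ne (i : Fin N) (j : Fin k) : Fin.natAdd N j ≠ Fin.castAdd k i := by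
  intro h
  have := congrArg Fin.val h
  simp only [Fin.val_natAdd, Fin.val_castAdd] at this
  have := i.2
  omega

/-- the data of a cell -/
theorem cell_data {A : Option (Fin k) → Finset (Fin N → ℤ)} {K : Finset (Fin N)}
    {b : Fin N → ℝ} {φ : Option (Fin k) → Finset (Fin N → ℤ)} (h : φ ∈ cellsC A K b) :
    ∃ κ l : Fin N → ℝ, (∀ i ∈ K, κ i = 0 ∧ l i = b i) ∧
      (∀ v, v ∈ φ none ↔ v ∈ A none ∧ κ ⬝ᵥ toR v = 1 ∧ l ⬝ᵥ toR v = 0) ∧
      ∀ j, ∀ v, v ∈ φ (some j) ↔ v ∈ A (some j) ∧ ∀ w ∈ A (some j),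
        κ ⬝ᵥ toR v < κ ⬝ᵥ toR w ∨ (κ ⬝ᵥ toR v = κ ⬝ᵥ toR w ∧ l ⬝ᵥ toR v ≤ l ⬝ᵥ toR w) := by
  classical
  unfold cellsC at h
  rw [mem_filter] at h
  obtain ⟨-, κ, l, h1, -, -, -, h2, h3⟩ := h
  refine ⟨κ, l, h1, fun v => ?_, fun j v => ?_⟩
  · rw [h2, mem_filter]
  · rw [h3, mem_filter]

theorem vanish {ρ : Finset (Fin n → ℤ)} (hρ : Indep ρ) (hc : ρ.card = (cs ρ).card)
    {D : Fin n → ℝ} (hD : ∀ u ∈ ρ, D ⬝ᵥ toR u = 0) : ∀ i ∈ cs ρ, D i = 0 := by
  classical
  let W : Submodule ℝ (Fin n → ℝ) :=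
    { carrier := {x | ∀ i, i ∉ cs ρ → x i = 0}
      zero_mem' := fun i _ => rfl
      add_mem' := fun hx hy i hi => by simp [hx i hi, hy i hi]
      smul_mem' := fun a x hx i hi => by simp [hx i hi] }
  have hle : Submodule.span ℝ (Set.range fun u : ρ => toR (u : Fin n → ℤ)) ≤ W := by
    rw [Submodule.span_le]
    rintro _ ⟨u, rfl⟩ i hi
    have : u.1 i = 0 := by
      by_contra hui
      exact hi (mem_cs.2 ⟨u.1, u.2, hui⟩)
    simp [toR, this]
  have h1 : Module.finrank ℝ W ≤ (cs ρ).card := by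
    let r : W →ₗ[ℝ] (cs ρ → ℝ) :=
      { toFun := fun x i => x.1 i.1
        map_add' := fun x y => rfl
        map_smul' := fun a x => rfl }
    have hr : Function.Injective r := by
      intro x y hxy
      apply Subtype.ext
      funext i
      by_cases hi : i ∈ cs ρ
      · exact congrFun hxy ⟨i, hi⟩
      · rw [x.2 i hi, y.2 i hi]
    have := LinearMap.finrank_le_finrank_of_injective hr
    simpa using this
  have h2 : Module.finrank ℝ (Submodule.span ℝ (Set.range fun u : ρ => toR (u : Fin n → ℤ))) =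
      ρ.card := by
    have := finrank_span_eq_card (R := ℝ) (b := fun u : ρ => toR (u : Fin n → ℤ)) hρ
    rw [this, Fintype.card_coe]
  have heq := Submodule.eq_of_le_of_finrank_le hle (by rw [h2, hc]; exact h1)
  intro i hi
  have hmem : (Pi.single i 1 : Fin n → ℝ) ∈ W := by
    intro j hj
    have : j ≠ i := fun h => hj (h ▸ hi)
    simp [this]
  rw [← heq] at hmem
  have key : ∀ x ∈ Submodule.span ℝ (Set.range fun u : ρ => toR (u : Fin n → ℤ)),
      D ⬝ᵥ x = 0 := by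
    intro x hx
    induction hx using Submodule.span_induction with
    | mem x hx => obtain ⟨u, rfl⟩ := hx; exact hD u.1 u.2
    | zero => simp
    | add x y _ _ hx hy => rw [dotProduct_add, hx, hy, add_zero]
    | smul a x _ hx => rw [dotProduct_smul, hx, smul_zero]
  simpa using key _ hmem

theorem card_cs (ρ : Finset (Fin (N + k) → ℤ)) : (cs ρ).card =
    (univ.filter fun i : Fin N => Fin.castAdd k i ∈ cs ρ).card +
      (univ.filter fun j : Fin k => Fin.natAdd N j ∈ cs ρ).card := by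
  have h : (cs ρ).card = ∑ i : Fin (N + k), if i ∈ cs ρ then 1 else 0 := by simp
  rw [h, Fin.sum_univ_add]
  simp

section
variable {A : Option (Fin k) → Finset (Fin N → ℤ)} {K : Finset (Fin N)}
  {φ : Option (Fin k) → Finset (Fin N → ℤ)} {Z ρ : Finset (Fin (N + k) → ℤ)}

theorem cols_some (hK : ρ ∩ Z = eK (Kh k K)) (hφ : ρ \ Z ⊆ cay φ univ) (j : Fin k) :
    some j ∈ cols (ρ \ Z) ↔ Fin.natAdd N j ∈ cs ρ := by
  classical
  unfold cols
  rw [mem_filter, mem_cs]
  constructor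
  · rintro ⟨-, v, hv, h⟩
    refine ⟨v, (mem_sdiff.1 hv).1, ?_⟩
    rw [h j]
    simp [ind]
  · rintro ⟨u, hu, huj⟩
    refine ⟨mem_univ _, ?_⟩
    have huZ : u ∉ Z := by
      intro huZ
      have : u ∈ eK (Kh k K) := by rw [← hK]; exact mem_inter.2 ⟨hu, huZ⟩
      obtain ⟨i, -, rfl⟩ := mem_eKh.1 this
      exact huj (by simp [natAdd_ne])
    have hu' : u ∈ ρ \ Z := mem_sdiff.2 ⟨hu, huZ⟩
    refine ⟨u, hu', ?_⟩
    obtain ⟨c, v, -, rfl⟩ := mem_cay.1 (hφ hu')
    rw [lift_natAdd] at huj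
    have hc : c = some j := by
      by_contra hne
      exact huj (by simp [ind, hne])
    intro j'
    rw [lift_natAdd, hc]

theorem card_zs (hK : ρ ∩ Z = eK (Kh k K)) (hφ : ρ \ Z ⊆ cay φ univ)
    (hn : none ∈ cols (ρ \ Z)) :
    (univ.filter fun j : Fin k => Fin.natAdd N j ∈ cs ρ).card + 1 = (cols (ρ \ Z)).card := by
  classical
  have h : cols (ρ \ Z) = insert none
      ((univ.filter fun j : Fin k => Fin.natAdd N j ∈ cs ρ).image some) := by
    ext c
    rcases c with _ | j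
    · simp [hn]
    · rw [cols_some hK hφ]
      simp
  rw [h, card_insert_of_notMem (by simp), card_image_of_injective _ (Option.some_injective _)]

theorem xs_sub (hK : ρ ∩ Z = eK (Kh k K)) (hφ : ρ \ Z ⊆ cay φ univ) :
    (univ.filter fun i : Fin N => Fin.castAdd k i ∈ cs ρ) ⊆ K ∪ csC (prC K φ) := by
  classical
  intro i hi
  rw [mem_filter, mem_cs] at hi
  obtain ⟨-, u, hu, hui⟩ := hi
  rw [mem_union]
  by_cases hiK : i ∈ K
  · exact Or.inl hiK
  right
  have huZ : u ∉ Z := by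
    intro huZ
    have : u ∈ eK (Kh k K) := by rw [← hK]; exact mem_inter.2 ⟨hu, huZ⟩
    obtain ⟨i', hi', rfl⟩ := mem_eKh.1 this
    apply hui
    have : i ≠ i' := fun h => hiK (h ▸ hi')
    have h' : Fin.castAdd k i ≠ Fin.castAdd k i' := fun h =>
      this (Fin.castAdd_injective _ _ h)
    simp [h']
  obtain ⟨c, v, hv, rfl⟩ := mem_cay.1 (hφ (mem_sdiff.2 ⟨hu, huZ⟩))
  rw [lift_castAdd] at hui
  unfold csC prC
  rw [mem_filter]
  refine ⟨mem_univ _, c, fun i => if i ∈ K then 0 else v i, ?_, by simp [hiK, hui]⟩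
  unfold projS
  exact mem_image.2 ⟨v, hv, rfl⟩

theorem disj_csC : Disjoint K (csC (prC K φ)) := by
  classical
  rw [disjoint_left]
  intro i hi h
  unfold csC prC projS at h
  rw [mem_filter] at h
  obtain ⟨-, c, u, hu, hui⟩ := h
  obtain ⟨v, hv, rfl⟩ := mem_image.1 hu
  simp [hi] at hui

theorem xs_eq (hK : ρ ∩ Z = eK (Kh k K)) (hφ : ρ \ Z ⊆ cay φ univ)
    (hn : none ∈ cols (ρ \ Z)) (h1 : (ρ \ Z).card = dimC (prC K φ) + (cols (ρ \ Z)).card)
    (h2 : dimC (prC K φ) + 1 = (csC (prC K φ)).card) (h3 : ρ.card = (cs ρ).card) :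
    (univ.filter fun i : Fin N => Fin.castAdd k i ∈ cs ρ) = K ∪ csC (prC K φ) := by
  classical
  refine eq_of_subset_of_card_le (xs_sub hK hφ) ?_
  rw [card_union_of_disjoint disj_csC]
  have e1 : ρ.card = K.card + (ρ \ Z).card := by
    have : (eK (Kh k K) : Finset (Fin (N + k) → ℤ)).card = K.card := by
      unfold eK Kh
      rw [image_image]
      refine card_image_of_injective _ ?_
      intro i j hij
      by_contra hne
      have := congrFun hij (Fin.castAdd k i)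
      have h' : Fin.castAdd k i ≠ Fin.castAdd k j := fun h =>
        hne (Fin.castAdd_injective _ _ h)
      simp [h'] at this
    rw [← this, ← hK, card_inter_add_card_sdiff]
  have e2 := card_cs (N := N) (k := k) ρ
  have e3 := card_zs hK hφ hn
  omega

/-- the elements of a cell are supported in the `x`-indices of `cs ρ` -/
theorem supp_cell (hI : (univ.filter fun i : Fin N => Fin.castAdd k i ∈ cs ρ) =
    K ∪ csC (prC K φ)) {c : Option (Fin k)} {v : Fin N → ℤ} (hv : v ∈ φ c) (i : Fin N)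
    (hi : Fin.castAdd k i ∉ cs ρ) : v i = 0 := by
  classical
  by_contra hvi
  apply hi
  have : i ∈ K ∪ csC (prC K φ) := by
    rw [mem_union]
    by_cases hiK : i ∈ K
    · exact Or.inl hiK
    right
    unfold csC prC
    rw [mem_filter]
    refine ⟨mem_univ _, c, fun i => if i ∈ K then 0 else v i, ?_, by simp [hiK, hvi]⟩
    unfold projS
    exact mem_image.2 ⟨v, hv, rfl⟩
  rw [← hI, mem_filter] at this
  exact this.2

theorem dot_append (κ : Fin N → ℝ) (z : Fin k → ℝ) (c : Option (Fin k)) (v : Fin N → ℤ) :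
    (Fin.append κ z : Fin (N + k) → ℝ) ⬝ᵥ toR (lift c v) =
      κ ⬝ᵥ toR v + ∑ j, z j * (ind c j : ℝ) := by
  unfold dotProduct
  rw [Fin.sum_univ_add]
  congr 1
  · refine sum_congr rfl fun i _ => ?_
    rw [Fin.append_left]
    simp [toR, lift_castAdd]
  · refine sum_congr rfl fun j _ => ?_
    rw [Fin.append_right]
    simp [toR, lift_natAdd]

/-- two forms which agree on each colour of `ρ`, up to constants, agree -/
theorem forms_eq (hρ : Indep ρ) (hc : ρ.card = (cs ρ).card) (hK : ρ ∩ Z = eK (Kh k K))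
    (hφ : ρ \ Z ⊆ cay φ univ) {δ : Fin N → ℝ} (h0 : ∀ i ∈ K, δ i = 0)
    (hnone : ∀ t, lift none t ∈ ρ \ Z → δ ⬝ᵥ toR t = 0)
    (hsome : ∀ j, ∀ v w, lift (some j) v ∈ ρ \ Z → lift (some j) w ∈ ρ \ Z →
      δ ⬝ᵥ toR v = δ ⬝ᵥ toR w) : ∀ i, Fin.castAdd k i ∈ cs ρ → δ i = 0 := by
  classical
  let z : Fin k → ℝ := fun j =>
    if h : ∃ v, lift (some j) v ∈ ρ \ Z then - (δ ⬝ᵥ toR h.choose) else 0
  have key : ∀ u ∈ ρ, (Fin.append δ z : Fin (N + k) → ℝ) ⬝ᵥ toR u = 0 := by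
    intro u hu
    by_cases huZ : u ∈ Z
    · have : u ∈ eK (Kh k K) := by rw [← hK]; exact mem_inter.2 ⟨hu, huZ⟩
      obtain ⟨i, hi, rfl⟩ := mem_eKh.1 this
      have e : toR (Pi.single (Fin.castAdd k i) 1 : Fin (N + k) → ℤ) =
          Pi.single (Fin.castAdd k i) 1 := by
        funext m
        by_cases hm : m = Fin.castAdd k i
        · subst hm; simp [toR]
        · simp [toR, hm]
      rw [e, dotProduct_single, Fin.append_left, h0 i hi, zero_mul]
    · have hu' : u ∈ ρ \ Z := mem_sdiff.2 ⟨hu, huZ⟩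
      obtain ⟨c, v, hv, rfl⟩ := mem_cay.1 (hφ hu')
      rw [dot_append]
      rcases c with _ | j
      · rw [hnone v hu']
        simp [ind]
      · have hex : ∃ v, lift (some j) v ∈ ρ \ Z := ⟨v, hu'⟩
        rw [sum_eq_single j]
        · have : z j = - (δ ⬝ᵥ toR hex.choose) := by
            show (if h : ∃ v, lift (some j) v ∈ ρ \ Z then - (δ ⬝ᵥ toR h.choose) else 0) = _
            rw [dif_pos hex]
          rw [this, hsome j v hex.choose hu' hex.choose_spec]
          simp [ind]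
        · intro j' _ hne
          have : ¬ (some j = some j') := fun h => hne (Option.some_injective _ h).symm
          simp [ind, this]
        · intro h; exact absurd (mem_univ _) h
  intro i hi
  have := vanish hρ hc key _ hi
  rwa [Fin.append_left] at this

theorem dot_congr {κ κ' : Fin N → ℝ} {v : Fin N → ℤ} (h : ∀ i, v i ≠ 0 → κ i = κ' i) :
    κ ⬝ᵥ toR v = κ' ⬝ᵥ toR v := by
  refine sum_congr rfl fun i _ => ?_
  by_cases hi : v i = 0
  · simp [toR, hi]
  · rw [h i hi]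

theorem lexmin_nonempty (B : Finset (Fin N → ℤ)) (hB : B.Nonempty) (κ l : Fin N → ℝ) :
    ∃ v ∈ B, ∀ w ∈ B, κ ⬝ᵥ toR v < κ ⬝ᵥ toR w ∨
      (κ ⬝ᵥ toR v = κ ⬝ᵥ toR w ∧ l ⬝ᵥ toR v ≤ l ⬝ᵥ toR w) := by
  obtain ⟨v, hv, h⟩ := exists_min_image B
    (fun v => (toLex (κ ⬝ᵥ toR v, l ⬝ᵥ toR v) : ℝ ×ₗ ℝ)) hB
  refine ⟨v, hv, fun w hw => ?_⟩
  have := h w hw
  rw [Prod.Lex.le_iff] at this
  exact this

end

theorem cellUnique (h1 : LatEq) : CellUnique := by
  classical
  intro N k A b L b' Z Φ' Φ hT K ρ hρ hK hn φ hφ φ' hφ' hs hs' hc hc' hd hd'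
  have hcard : ρ.card = (cs ρ).card :=
    (h1 N k A b L b' Z Φ' Φ hT K φ hφ ρ hρ hK hs hn hc).2 hd
  have hind : Indep ρ := by
    unfold Fan.faces at hρ
    rw [mem_biUnion] at hρ
    obtain ⟨F, hF, hρF⟩ := hρ
    have hF' := Φ.mx_indep F hF
    exact hF'.comp (fun u : ρ => (⟨u.1, mem_powerset.1 hρF u.2⟩ : F)) (by
      intro x y hxy
      apply Subtype.ext
      have := congrArg (fun z : F => z.1) hxy
      exact this)
  have hI := xs_eq hK hs hn hc hd hcard
  have hI' := xs_eq hK hs' hn hc' hd' hcard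
  obtain ⟨κ, l, a1, a2, a3⟩ := cell_data hφ
  obtain ⟨κ', l', b1, b2, b3⟩ := cell_data hφ'
  have mem_none : ∀ t, lift none t ∈ ρ \ Z → t ∈ φ none ∧ t ∈ φ' none := by
    have aux : ∀ ψ : Option (Fin k) → Finset (Fin N → ℤ), ρ \ Z ⊆ cay ψ univ →
        ∀ c t, lift c t ∈ ρ \ Z → t ∈ ψ c := by
      intro ψ hψ c t ht
      obtain ⟨c', v, hv, h⟩ := mem_cay.1 (hψ ht)
      have hvt : v = t := by
        funext i
        have := congrFun h (Fin.castAdd k i)
        rwa [lift_castAdd, lift_castAdd] at this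
      have hcc : c' = c := by
        rcases c' with _ | j'
        · rcases c with _ | j
          · rfl
          · have := congrFun h (Fin.natAdd N j)
            rw [lift_natAdd, lift_natAdd] at this
            simp [ind] at this
        · have := congrFun h (Fin.natAdd N j')
          rw [lift_natAdd, lift_natAdd] at this
          by_contra hne
          have h' : ¬ (c = some j') := fun h => hne h.symm
          simp [ind, h'] at this
      rw [← hcc, ← hvt]; exact hv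
    intro t ht
    exact ⟨aux φ hs _ t ht, aux φ' hs' _ t ht⟩
  have mem_some : ∀ j v, lift (some j) v ∈ ρ \ Z → v ∈ φ (some j) ∧ v ∈ φ' (some j) := by
    have aux : ∀ ψ : Option (Fin k) → Finset (Fin N → ℤ), ρ \ Z ⊆ cay ψ univ →
        ∀ c t, lift c t ∈ ρ \ Z → t ∈ ψ c := by
      intro ψ hψ c t ht
      obtain ⟨c', v, hv, h⟩ := mem_cay.1 (hψ ht)
      have hvt : v = t := by
        funext i
        have := congrFun h (Fin.castAdd k i)
        rwa [lift_castAdd, lift_castAdd] at this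
      have hcc : c' = c := by
        rcases c' with _ | j'
        · rcases c with _ | j
          · rfl
          · have := congrFun h (Fin.natAdd N j)
            rw [lift_natAdd, lift_natAdd] at this
            simp [ind] at this
        · have := congrFun h (Fin.natAdd N j')
          rw [lift_natAdd, lift_natAdd] at this
          by_contra hne
          have h' : ¬ (c = some j') := fun h => hne h.symm
          simp [ind, h'] at this
      rw [← hcc, ← hvt]; exact hv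
    intro j t ht
    exact ⟨aux φ hs _ t ht, aux φ' hs' _ t ht⟩
  -- equality of the minimal values
  have minEq : ∀ {κ l : Fin N → ℝ} {B : Finset (Fin N → ℤ)} {v w : Fin N → ℤ}, v ∈ B → w ∈ B →
      (∀ w ∈ B, κ ⬝ᵥ toR v < κ ⬝ᵥ toR w ∨
        (κ ⬝ᵥ toR v = κ ⬝ᵥ toR w ∧ l ⬝ᵥ toR v ≤ l ⬝ᵥ toR w)) →
      (∀ v ∈ B, κ ⬝ᵥ toR w < κ ⬝ᵥ toR v ∨
        (κ ⬝ᵥ toR w = κ ⬝ᵥ toR v ∧ l ⬝ᵥ toR w ≤ l ⬝ᵥ toR v)) →
      κ ⬝ᵥ toR v = κ ⬝ᵥ toR w ∧ l ⬝ᵥ toR v = l ⬝ᵥ toR w := by
    intro κ l B v w hv hw h h'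
    rcases h w hw with g | ⟨g1, g2⟩
    · rcases h' v hv with g' | ⟨g1', g2'⟩
      · exact absurd g (not_lt.2 g'.le)
      · exact absurd g1' (ne_of_gt g)
    · rcases h' v hv with g' | ⟨g1', g2'⟩
      · exact absurd g1 (ne_of_gt g')
      · exact ⟨g1, le_antisymm g2 g2'⟩
  have hκ : ∀ i, Fin.castAdd k i ∈ cs ρ → κ i = κ' i := by
    intro i hi
    have := forms_eq (δ := κ - κ') hind hcard hK hs
      (fun i hi => by rw [Pi.sub_apply, (a1 i hi).1, (b1 i hi).1, sub_zero])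
      (fun t ht => by
        obtain ⟨g1, g2⟩ := mem_none t ht
        rw [sub_dotProduct, ((a2 t).1 g1).2.1, ((b2 t).1 g2).2.1, sub_self])
      (fun j v w hv hw => by
        obtain ⟨g1, g2⟩ := mem_some j v hv
        obtain ⟨g3, g4⟩ := mem_some j w hw
        rw [sub_dotProduct, sub_dotProduct,
          (minEq ((a3 j v).1 g1).1 ((a3 j w).1 g3).1 ((a3 j v).1 g1).2 ((a3 j w).1 g3).2).1,
          (minEq ((b3 j v).1 g2).1 ((b3 j w).1 g4).1 ((b3 j v).1 g2).2 ((b3 j w).1 g4).2).1])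
      i hi
    rw [Pi.sub_apply] at this
    linarith
  have hl : ∀ i, Fin.castAdd k i ∈ cs ρ → l i = l' i := by
    intro i hi
    have := forms_eq (δ := l - l') hind hcard hK hs
      (fun i hi => by rw [Pi.sub_apply, (a1 i hi).2, (b1 i hi).2, sub_self])
      (fun t ht => by
        obtain ⟨g1, g2⟩ := mem_none t ht
        rw [sub_dotProduct, ((a2 t).1 g1).2.2, ((b2 t).1 g2).2.2, sub_self])
      (fun j v w hv hw => by
        obtain ⟨g1, g2⟩ := mem_some j v hv
        obtain ⟨g3, g4⟩ := mem_some j w hw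
        rw [sub_dotProduct, sub_dotProduct,
          (minEq ((a3 j v).1 g1).1 ((a3 j w).1 g3).1 ((a3 j v).1 g1).2 ((a3 j w).1 g3).2).2,
          (minEq ((b3 j v).1 g2).1 ((b3 j w).1 g4).1 ((b3 j v).1 g2).2 ((b3 j w).1 g4).2).2])
      i hi
    rw [Pi.sub_apply] at this
    linarith
  -- on the elements of the cells the two pairs of forms agree
  have dotφ : ∀ c, ∀ v ∈ φ c, κ ⬝ᵥ toR v = κ' ⬝ᵥ toR v ∧ l ⬝ᵥ toR v = l' ⬝ᵥ toR v := by
    intro c v hv
    have hsupp : ∀ i, v i ≠ 0 → Fin.castAdd k i ∈ cs ρ := by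
      intro i hi
      by_contra hni
      exact hi (supp_cell hI hv i hni)
    exact ⟨dot_congr fun i hi => hκ i (hsupp i hi), dot_congr fun i hi => hl i (hsupp i hi)⟩
  have dotφ' : ∀ c, ∀ v ∈ φ' c, κ ⬝ᵥ toR v = κ' ⬝ᵥ toR v ∧ l ⬝ᵥ toR v = l' ⬝ᵥ toR v := by
    intro c v hv
    have hsupp : ∀ i, v i ≠ 0 → Fin.castAdd k i ∈ cs ρ := by
      intro i hi
      by_contra hni
      exact hi (supp_cell hI' hv i hni)
    exact ⟨dot_congr fun i hi => hκ i (hsupp i hi), dot_congr fun i hi => hl i (hsupp i hi)⟩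
  have lexTrans : ∀ {a b c a' b' c' : ℝ}, (a < b ∨ (a = b ∧ a' ≤ b')) →
      (b < c ∨ (b = c ∧ b' ≤ c')) → (a < c ∨ (a = c ∧ a' ≤ c')) := by
    intro a b c a' b' c' h h'
    rcases h with h | ⟨h, g⟩
    · rcases h' with h' | ⟨h', g'⟩
      · exact Or.inl (h.trans h')
      · exact Or.inl (h' ▸ h)
    · rcases h' with h' | ⟨h', g'⟩
      · exact Or.inl (h ▸ h')
      · exact Or.inr ⟨h.trans h', g.trans g'⟩
  funext c
  rcases c with _ | j
  · ext t
    constructor
    · intro ht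
      obtain ⟨g1, g2, g3⟩ := (a2 t).1 ht
      obtain ⟨d1, d2⟩ := dotφ _ t ht
      exact (b2 t).2 ⟨g1, by rw [← d1]; exact g2, by rw [← d2]; exact g3⟩
    · intro ht
      obtain ⟨g1, g2, g3⟩ := (b2 t).1 ht
      obtain ⟨d1, d2⟩ := dotφ' _ t ht
      exact (a2 t).2 ⟨g1, by rw [d1]; exact g2, by rw [d2]; exact g3⟩
  · have hB : (A (some j)).Nonempty := hT.good.ne (some j)
    obtain ⟨v₁, hv₁B, hv₁⟩ := lexmin_nonempty (A (some j)) hB κ l
    obtain ⟨v₂, hv₂B, hv₂⟩ := lexmin_nonempty (A (some j)) hB κ' l'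
    have hv₁' : v₁ ∈ φ (some j) := (a3 j v₁).2 ⟨hv₁B, hv₁⟩
    have hv₂' : v₂ ∈ φ' (some j) := (b3 j v₂).2 ⟨hv₂B, hv₂⟩
    obtain ⟨p1, p2⟩ := dotφ _ v₁ hv₁'
    obtain ⟨q1, q2⟩ := dotφ' _ v₂ hv₂'
    ext v
    constructor
    · intro hv
      obtain ⟨g1, g2⟩ := (a3 j v).1 hv
      obtain ⟨d1, d2⟩ := dotφ _ v hv
      refine (b3 j v).2 ⟨g1, fun w hw => ?_⟩
      have e1 := g2 v₂ hv₂B
      rw [d1, d2, q1, q2] at e1
      exact lexTrans e1 (hv₂ w hw)
    · intro hv
      obtain ⟨g1, g2⟩ := (b3 j v).1 hv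
      obtain ⟨d1, d2⟩ := dotφ' _ v hv
      refine (a3 j v).2 ⟨g1, fun w hw => ?_⟩
      have e1 := g2 v₁ hv₁B
      rw [← d1, ← d2, ← p1, ← p2] at e1
      exact lexTrans e1 (hv₁ w hw)

/-- the form of the packet -/
theorem cellUnique' (h1 : LatEq) (_hS : ScaleRel) : CellUnique := cellUnique h1

end Mono.CI.M3
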